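import Mathlib
import Pool.Agent.H39.KT2

namespace Pool.Agent.Results.MP_8697f8_lc.Four

open Cardinal
open Pool.Agent.H39.KT2

theorem result :
    (2 ^ tNum ≤ 𝔠 → ¬ ∀ J0 J1 : Set (Set ℕ), IsIdeal J0 → IsIdeal J1 →
      pKstar (J0 ∩ J1) = pKstar (dsum J0 J1)) ∧
    (𝔠 < 2 ^ pNum → ∀ J0 J1 : Set (Set ℕ), IsIdeal J0 → IsIdeal J1 →
      pKstar (J0 ∩ J1) = pKstar (dsum J0 J1)) :=
  both.2

end Pool.Agent.Results.MP_8697f8_lc.Four
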