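import Mathlib
import Pool.Agent.H39.KT2

namespace Pool.Agent.Results.MP_8697f8_lc.NotII

open Pool.Agent.H39.KT2

theorem result :
    ¬ ∀ I J0 J1 : Set (Set ℕ), IsIdeal I → IsIdeal J0 → IsIdeal J1 →
      pK I (J0 ∩ J1) = pK I (dsum J0 J1) :=
  both.1

end Pool.Agent.Results.MP_8697f8_lc.NotII
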